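import Pool.Agent.helper99.LC.Final

/-!
# A connected limit set which is not locally connected

The statement uses only the definitions of `Pool.Agent.helper99.LC.Defs`.

Construction. `W` is the right angled Coxeter group of a graph with 14 vertices (square free,
without separating cliques, so `W` is hyperbolic and one-ended), `v, v'` two of its generators,
`E = {e_n}` the line `⟨v, v'⟩` in the Cayley graph of `W`. `Q` is the subgroup of the elements in
the kernel of an action of `W` on `ℤ ^ 3` by reflections whose total translation is zero; it is
finitely generated and meets `⟨v, v'⟩` trivially. `G = Q * ⟨c⟩` acts on the tree of spaces whose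
vertex spaces are copies of the Cayley graph of `W` (pages) and of the graph `ℤ × ℤ` with edges
`(h, n) - (h, n + 1)` and `(h, n) - (h + 1, ⌊n / 2⌋)` (planes); the pages are glued to the rows of
the planes along the translates of `E`, and `c` shifts the rows. This graph is locally
finite and hyperbolic (guessed geodesics); `X` is its geometric realization.

Both ends of each row of a plane converge to the same point `ξ₋`, the fixed point of `c`. The
limit set of `Q` is connected (one-endedness of `W`) and contains `ξ₋`, so the union of its
translates is connected. The points of the limit set of `G`, other than `ξ₋`, which are limits of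
elements with the head `c ^ k` form an open and closed subset `W_k` of the complement of `ξ₋`,
and the `W_k` accumulate to `ξ₊ ≠ ξ₋` for `k → ∞`; so the limit set is not locally connected at
`ξ₊`.
-/

set_option autoImplicit false

namespace Pool.Agent.Results.MP_c915fc_gt.NotLocallyConnected

open Pool.Agent.helper99.LC

/-- There are a proper geodesic Gromov hyperbolic space `X` and a finitely generated group `G`
acting on `X` properly discontinuously by isometries, such that the limit set of `G` (the set of
limits in the boundary of `X` of sequences of points of an orbit `G x`, for every `x`) is
connected but not locally connected. -/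
theorem result :
    ∃ (X : Type) (_ : MetricSpace X) (G : Type) (_ : Group G) (_ : MulAction G X),
      Nonempty X ∧ ProperSpace X ∧ Geodesic X ∧ Hyperbolic X ∧ Group.FG G ∧
      (∀ (g : G) (x y : X), dist (g • x) (g • y) = dist x y) ∧
      (∀ K : Set X, IsCompact K → {g : G | ∃ x ∈ K, g • x ∈ K}.Finite) ∧
      ∀ x : X, IsConnected (limitSet G x) ∧ ¬ LocallyConnectedSpace (limitSet G x) :=
  target

end Pool.Agent.Results.MP_c915fc_gt.NotLocallyConnected
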